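import Pool.Agent.helper58.FI4E.Spec

/-!
# Project fi4e (MP_baa4d7_al), block E2, row CTG: the last sum of the toggle
-/

set_option autoImplicit false

namespace Pool.Agent.FI4E

open Pool.Agent.helper58.DC Pool.Agent.DI Pool.Agent.GR Pool.Agent.OB Pool.Agent.DR Pool.Agent.FI Pool.Agent.FI3 Pool.Agent.FI4 Pool.Agent.FI4I

open Classical in
theorem CTG_fs {β : Type} [Fintype β] (P : β → Prop) (F : β → ℂ) :
    ∑ᶠ a ∈ {a : β | P a}, F a = ∑ a : β, if P a then F a else 0 := by
  have hfin : ({a : β | P a}).Finite := Set.toFinite _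
  rw [finsum_mem_eq_finite_toFinset_sum _ hfin, ← Finset.sum_filter]
  refine Finset.sum_congr ?_ fun _ _ => rfl
  ext g
  simp

theorem CTG_cj {G : Type} [Group G] (g h : G) (D : Subgroup G) : cjS g (cjS h D) = cjS (g * h) D := by
  ext x
  rw [mem_cjS, mem_cjS, mem_cjS]
  have : h⁻¹ * (g⁻¹ * x * g) * h = (g * h)⁻¹ * x * (g * h) := by group
  rw [this]

theorem CTG_fix {G : Type} [Group G] [Finite G] (m : G) (D : Subgroup G) : cjS m D = D ↔ m ∈ nz D := by
  constructor
  · intro h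
    rw [Subgroup.mem_normalizer_iff]
    intro y
    constructor
    · intro hy
      have h1 : m * y * m⁻¹ ∈ cjS m D := by
        rw [mem_cjS]
        have : m⁻¹ * (m * y * m⁻¹) * m = y := by group
        rw [this]
        exact hy
      rw [h] at h1
      exact h1
    · intro hy
      have hy' : m * y * m⁻¹ ∈ D := hy
      rw [← h, mem_cjS] at hy'
      have : m⁻¹ * (m * y * m⁻¹) * m = y := by group
      rw [this] at hy'
      exact hy'
  · intro h
    rw [Subgroup.mem_normalizer_iff] at h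
    ext x
    rw [mem_cjS]
    have h1 := h (m⁻¹ * x * m)
    have e1 : m * (m⁻¹ * x * m) * m⁻¹ = x := by group
    rw [e1] at h1
    exact h1

theorem CTG (hBAA : BAA_stmt) (hTSI : TSI_stmt) (hTSJ : TSJ_stmt) : CTG_stmt := by
  classical
  intro p M G _ _ D χ hχ α hα
  have _inst : Fintype G := Fintype.ofFinite G
  have hB : ∀ P : Subgroup G, nz (am α P) = am α (nz P) := fun P =>
    (hBAA G M p α P P P χ χ χ).1.2.1
  have hC : ∀ (h : G) (P : Subgroup G), am α (cjS h P) = cjS (α h) (am α P) := fun h P =>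
    ((hBAA G M p α P P P χ χ χ).2.2.2.2.2.2.2.2.1 h).1
  have hBc : ∀ (h : G) (P : Subgroup G), nz (cjS h P) = cjS h (nz P) := fun h P =>
    (hBAA G M p (MulAut.conj h) P P P χ χ χ).1.2.1
  have hN : am α (nz D) = nz D := by rw [← hB, hα]
  have hcond : ∀ g h : G, am (al α g) (cjS h D) = cjS h D ↔ h⁻¹ * g * α h ∈ nz D := by
    intro g h
    rw [am_al, hC, hα, CTG_cj, ← CTG_fix]
    constructor
    · intro h1
      have h2 : cjS h⁻¹ (cjS (g * α h) D) = cjS h⁻¹ (cjS h D) := by rw [h1]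
      rw [CTG_cj, CTG_cj, inv_mul_cancel] at h2
      have e1 : h⁻¹ * g * α h = h⁻¹ * (g * α h) := by group
      rw [e1, h2]
      ext x
      rw [mem_cjS]
      simp
    · intro h1
      have h2 : cjS h (cjS (h⁻¹ * g * α h) D) = cjS h D := by rw [h1]
      rw [CTG_cj] at h2
      have e1 : h * (h⁻¹ * g * α h) = g * α h := by group
      rw [e1] at h2
      exact h2
  have hterm : ∀ h : G, ∀ m ∈ nz D, tL p M χ (nz (cjS h D)) (al α (h * m * (α h)⁻¹)) =
      tL p M χ (nz D) α := by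
    intro h m hm
    rw [hBc, ← conj_al, (hTSJ p M G (nz D) (al α m) 1).2.2.2 χ hχ h]
    have h1 := (hTSI p G (nz D) α hN m hm).2 (Blk M χ (nz D)) (fun ψ hψ => hψ.1)
    exact h1
  rw [finsum_eq_sum_of_fintype]
  have h1 : ∀ g : G, ∑ᶠ h ∈ {h : G | am (al α g) (cjS h D) = cjS h D}, tL p M χ (nz (cjS h D)) (al α g) =
      ∑ h : G, if h⁻¹ * g * α h ∈ nz D then tL p M χ (nz (cjS h D)) (al α g) else 0 := by
    intro g
    rw [CTG_fs]
    refine Finset.sum_congr rfl fun h _ => ?_
    by_cases hc : am (al α g) (cjS h D) = cjS h D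
    · rw [if_pos hc, if_pos ((hcond g h).1 hc)]
    · rw [if_neg hc, if_neg fun h2 => hc ((hcond g h).2 h2)]
  rw [Finset.sum_congr rfl fun g _ => h1 g, Finset.sum_comm]
  have h2 : ∀ h : G, ∑ g : G, (if h⁻¹ * g * α h ∈ nz D then tL p M χ (nz (cjS h D)) (al α g) else 0) =
      (Nat.card (nz D) : ℂ) * tL p M χ (nz D) α := by
    intro h
    have e := Equiv.sum_comp ((Equiv.mulLeft h).trans (Equiv.mulRight (α h)⁻¹))
      (fun g : G => if h⁻¹ * g * α h ∈ nz D then tL p M χ (nz (cjS h D)) (al α g) else 0)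
    rw [← e]
    have h3 : ∀ m : G, (if h⁻¹ * (((Equiv.mulLeft h).trans (Equiv.mulRight (α h)⁻¹)) m) * α h ∈ nz D then
        tL p M χ (nz (cjS h D)) (al α (((Equiv.mulLeft h).trans (Equiv.mulRight (α h)⁻¹)) m)) else 0) =
        if m ∈ nz D then tL p M χ (nz D) α else 0 := by
      intro m
      have e1 : ((Equiv.mulLeft h).trans (Equiv.mulRight (α h)⁻¹)) m = h * m * (α h)⁻¹ := rfl
      have e2 : h⁻¹ * (h * m * (α h)⁻¹) * α h = m := by group
      rw [e1, e2]
      by_cases hm : m ∈ nz D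
      · rw [if_pos hm, if_pos hm, hterm h m hm]
      · rw [if_neg hm, if_neg hm]
    rw [Finset.sum_congr rfl fun m _ => h3 m, ← Finset.sum_filter, Finset.sum_const, nsmul_eq_mul]
    have h4 : (Finset.univ.filter fun m : G => m ∈ nz D).card = Nat.card (nz D) := by
      rw [Nat.card_eq_fintype_card, Fintype.card_subtype]
    rw [h4]
  rw [Finset.sum_congr rfl fun h _ => h2 h, Finset.sum_const, Finset.card_univ, nsmul_eq_mul,
    ← Nat.card_eq_fintype_card (α := G)]

end Pool.Agent.FI4E
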