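import Pool.Agent.helper58.FI4E.Spec

/-!
# Project fi4e (MP_baa4d7_al), block E2, row LBE: one block of `N`
-/

set_option autoImplicit false

namespace Pool.Agent.FI4E

open Pool.Agent.helper58.DC Pool.Agent.DI Pool.Agent.GR Pool.Agent.OB Pool.Agent.DR Pool.Agent.FI Pool.Agent.FI3 Pool.Agent.FI4 Pool.Agent.FI4I

open Classical in
theorem LBE_fs {β : Type} [Fintype β] (P : β → Prop) (F : β → ℂ) :
    ∑ᶠ a ∈ {a : β | P a}, F a = ∑ a : β, if P a then F a else 0 := by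
  have hfin : ({a : β | P a}).Finite := Set.toFinite _
  rw [finsum_mem_eq_finite_toFinset_sum _ hfin, ← Finset.sum_filter]
  refine Finset.sum_congr ?_ fun _ _ => rfl
  ext g
  simp

theorem LBE (hBKN : BKN_stmt) (hBKV : BKV_stmt) (hBKC : BKC_stmt) (hDCT : DCT_stmt) (hTSI : TSI_stmt)
    (hUNS : UNS_stmt) (hBAA : BAA_stmt) (hFEQ : FEQ_stmt) (hCJG : CJG_stmt) : LBE_stmt := by
  classical
  intro p M hM G _ _ D x θ χ hR Q N hMid hRed φ hφ β hβN hβQ hk
  obtain ⟨k, hk⟩ := hk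
  have _inst : Fintype G := Fintype.ofFinite G
  have hφN : φ ∈ IrrOn N := hφ.1
  -- facts from BAA
  have hnz : ∀ (γ : MulAut G) (P : Subgroup G), nz (am γ P) = am γ (nz P) := fun γ P =>
    (hBAA G M p γ P P P χ χ χ).1.2.1
  have hcz : ∀ (γ : MulAut G) (P : Subgroup G), cz (am γ P) = am γ (cz P) := fun γ P =>
    (hBAA G M p γ P P P χ χ χ).1.1
  have hinf : ∀ (γ : MulAut G) (P P' : Subgroup G), am γ (P ⊓ P') = am γ P ⊓ am γ P' := fun γ P P' =>
    (hBAA G M p γ P P' P χ χ χ).1.2.2.2.1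
  have hle : ∀ (γ : MulAut G) (P P' : Subgroup G), am γ P ≤ am γ P' ↔ P ≤ P' := fun γ P P' =>
    (hBAA G M p γ P P' P χ χ χ).1.2.2.1
  have hirr : ∀ (γ : MulAut G) (L : Subgroup G) (ψ : G → ℂ), ψ ∈ IrrOn L ↔ funMap γ ψ ∈ IrrOn (am γ L) :=
    fun γ L ψ => (hBAA G M p γ L L L χ ψ χ).2.2.1
  have hSBm : ∀ (γ : MulAut G) (L : Subgroup G) (η ψ : G → ℂ), SB M L η ψ ↔
      SB M (am γ L) (funMap γ η) (funMap γ ψ) := fun γ L η ψ => (hBAA G M p γ L L L η ψ χ).2.2.2.1
  have hcj : ∀ (g : G) (P : Subgroup G), am β (cjS g P) = cjS (β g) (am β P) := fun g P =>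
    ((hBAA G M p β P P P χ χ χ).2.2.2.2.2.2.2.2.1 g).1
  have hcc : ∀ (g h : G) (P : Subgroup G), cjS g (cjS h P) = cjS (g * h) P := fun g h P =>
    (hFEQ G M g h P P P χ χ χ).1.1
  have hfix : ∀ (g : G) (P : Subgroup G), cjS g P = P ↔ g ∈ nz P := fun g P =>
    (hFEQ G M g g P P P χ χ χ).2.1.2.2.2.1
  have hone : ∀ P : Subgroup G, cjS (1 : G) P = P := fun P => (hFEQ G M 1 1 P P P χ χ χ).1.2.2.1
  have hcN : ∀ n ∈ N, cjS n N = N := fun n hn => ((hCJG G M p n N).2.2.2.2.2.1 hn φ).2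
  have halN : ∀ n ∈ N, am (al β n) N = N := by
    intro n hn
    rw [am_al, hβN, hcN n hn]
  have hfun : ∀ n ∈ N, funMap (al β n) φ = funMap β φ := fun n hn =>
    (hTSI p G N β hβN n hn).1 φ hφN
  have hH : ∀ n ∈ N, ∀ g : G, am (al β n) (cjS g D) = cjS g D →
      am (al β n) (N ⊓ nz (cjS g D)) = N ⊓ nz (cjS g D) := by
    intro n hn g hg
    rw [hinf, halN n hn, ← hnz, hg]
  by_cases hst : SB M N (funMap β φ) φ
  swap
  · have h1 : tS p N (Bq M N N φ) β = 0 :=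
      (hUNS p M hM G β N hβN).1 N le_rfl hβN φ (fun x hx => hφN.1 x hx) hst
    rw [h1, mul_zero, mul_zero]
    symm
    apply finsum_mem_eq_zero_of_forall_eq_zero
    intro n hn
    apply finsum_mem_eq_zero_of_forall_eq_zero
    rintro g ⟨-, hg⟩
    exact (hUNS p M hM G (al β n) (N ⊓ nz (cjS g D)) (hH n hn g hg)).1 N inf_le_left (halN n hn) φ
      (fun x hx => hφN.1 x hx) (by rw [hfun n hn]; exact hst)
  · obtain ⟨g₀, hQ₀, θ₀, hθ₀, hS₀, -⟩ := hBKN p M hM G D x θ χ hR Q N hMid φ hφ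
    have hdct := hDCT G D N g₀
    set A : Set G := {g : G | ∃ n ∈ N, cjS n (cjS g₀ D) = cjS g D} with hA
    set T : ℂ := tS p N (Bq M N N φ) β with hT
    have hAp : ∀ g ∈ A, Q ≤ cjS g D ∧ ∃ θ₁ ∈ IrrOn (cz (cjS g D)), SB M N θ₁ φ := by
      rintro g ⟨n, hn, hng⟩
      have hQn : cjS n Q = Q := (hfix n Q).2 (hMid.nle hn)
      refine ⟨?_, cjF n θ₀, ?_, ?_⟩
      · rw [← hQn, ← hng]
        exact ((hFEQ G M n n Q (cjS g₀ D) Q φ φ φ).2.1.2.2.1).2 hQ₀
      · rw [← hng]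
        have e1 : cz (cjS n (cjS g₀ D)) = cjS n (cz (cjS g₀ D)) := (hFEQ G M n n (cjS g₀ D) Q Q φ φ φ).2.1.1
        rw [e1]
        exact ((hFEQ G M n n Q Q (cz (cjS g₀ D)) φ θ₀ φ).2.2.2.1).1 hθ₀
      · exact (((hCJG G M p n N).2.2.2.2.2.1 hn θ₀).1).trans hS₀
    have hzero : ∀ n ∈ N, ∀ g : G, Q ≤ cjS g D → g ∉ A →
        tS p (N ⊓ nz (cjS g D)) (Bq M N (N ⊓ nz (cjS g D)) φ) (al β n) = 0 := by
      intro n _ g hQg hgA
      have hemp : Bq M N (N ⊓ nz (cjS g D)) φ = ∅ := by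
        rw [Set.eq_empty_iff_forall_notMem]
        rintro ζ ⟨hζ, hζφ⟩
        obtain ⟨-, -, -, hz⟩ := hBKV p M hM G D x θ χ hR Q N hMid g hQg
        obtain ⟨θ₁, h1, -, h3⟩ := hz ζ hζ
        exact hgA (hBKC p M hM G D x θ χ hR Q N hMid φ hφ g₀ g hQ₀ hQg θ₀ hθ₀ hS₀ θ₁ h1 (h3.trans hζφ))
      unfold tS
      rw [hemp, finsum_mem_empty]
    have hterm : ∀ n ∈ N, ∀ g ∈ A, am (al β n) (cjS g D) = cjS g D →
        tS p (N ⊓ nz (cjS g D)) (Bq M N (N ⊓ nz (cjS g D)) φ) (al β n) = T := by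
      intro n hn g hg hgn
      obtain ⟨hQg, θ₁, hθ₁, hS₁⟩ := hAp g hg
      have h1 := hRed φ hφ g hQg θ₁ hθ₁ hS₁ (al β n) (halN n hn) hgn (by rw [hfun n hn]; exact hst)
      rw [← h1]
      exact (hTSI p G N β hβN n hn).2 (Bq M N N φ) (fun ψ hψ => hψ.1)
    have hcount : ∀ g ∈ A, ((Finset.univ.filter fun n : G => n ∈ N ∧ am (al β n) (cjS g D) = cjS g D).card : ℂ) =
        (Nat.card (N ⊓ nz (cjS g₀ D) : Subgroup G) : ℂ) := by
      intro g hg
      obtain ⟨hQg, θ₁, hθ₁, hS₁⟩ := hAp g hg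
      obtain ⟨n₁, hn₁, hng⟩ := hg
      have e1 : am β (cjS g D) = cjS (β g * k) D := by rw [hcj, hk, hcc]
      obtain ⟨m, hm, hmg⟩ := hBKC p M hM G D x θ χ hR Q N hMid φ hφ g₀ (β g * k) hQ₀
        (by rw [← e1, ← hβQ]; exact (hle β Q (cjS g D)).2 hQg) θ₀ hθ₀ hS₀ (funMap β θ₁)
        (by rw [← e1, hcz]; exact (hirr β _ θ₁).1 hθ₁)
        (by
          have h2 := (hSBm β N θ₁ φ).1 hS₁
          rw [hβN] at h2
          exact h2.trans hst)
      have hiff : ∀ n : G, am (al β n) (cjS g D) = cjS g D ↔ n₁⁻¹ * n * m ∈ nz (cjS g₀ D) := by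
        intro n
        rw [am_al, e1, ← hmg, ← hng, hcc, ← hfix]
        constructor
        · intro h1
          have e2 : n₁⁻¹ * n * m = n₁⁻¹ * (n * m) := by group
          rw [e2, ← hcc, h1, hcc, inv_mul_cancel, hone]
        · intro h1
          have e2 : n * m = n₁ * (n₁⁻¹ * n * m) := by group
          rw [e2, ← hcc, h1]
      have hcard : (Finset.univ.filter fun n : G => n ∈ N ∧ am (al β n) (cjS g D) = cjS g D).card =
          (Finset.univ.filter fun y : G => y ∈ N ⊓ nz (cjS g₀ D)).card := by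
        apply Finset.card_bij (fun n _ => n₁⁻¹ * n * m)
        · intro n hn
          rw [Finset.mem_filter] at hn ⊢
          refine ⟨Finset.mem_univ _, ?_⟩
          rw [Subgroup.mem_inf]
          exact ⟨N.mul_mem (N.mul_mem (N.inv_mem hn₁) hn.2.1) hm, (hiff n).1 hn.2.2⟩
        · intro a _ b _ hab
          have h1 : n₁⁻¹ * a * m = n₁⁻¹ * b * m := hab
          exact mul_left_cancel (mul_right_cancel h1)
        · intro y hy
          rw [Finset.mem_filter, Subgroup.mem_inf] at hy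
          refine ⟨n₁ * y * m⁻¹, ?_, ?_⟩
          · rw [Finset.mem_filter]
            refine ⟨Finset.mem_univ _, N.mul_mem (N.mul_mem hn₁ hy.2.1) (N.inv_mem hm), ?_⟩
            rw [hiff]
            have e2 : n₁⁻¹ * (n₁ * y * m⁻¹) * m = y := by group
            rw [e2]
            exact hy.2.2
          · group
      rw [hcard]
      congr 1
      rw [Nat.card_eq_fintype_card, Fintype.card_subtype]
    have hNs : (N : Set G) = {n : G | n ∈ N} := rfl
    rw [hNs, LBE_fs]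
    have h1 : ∀ n : G, (if n ∈ N then ∑ᶠ g ∈ {g : G | Q ≤ cjS g D ∧ am (al β n) (cjS g D) = cjS g D},
        tS p (N ⊓ nz (cjS g D)) (Bq M N (N ⊓ nz (cjS g D)) φ) (al β n) else 0) =
        ∑ g : G, if g ∈ A then (if n ∈ N ∧ am (al β n) (cjS g D) = cjS g D then T else 0) else 0 := by
      intro n
      by_cases hn : n ∈ N
      · rw [if_pos hn, LBE_fs]
        refine Finset.sum_congr rfl fun g _ => ?_
        by_cases hg : g ∈ A
        · rw [if_pos hg]
          by_cases hc : am (al β n) (cjS g D) = cjS g D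
          · rw [if_pos ⟨(hAp g hg).1, hc⟩, if_pos ⟨hn, hc⟩, hterm n hn g hg hc]
          · rw [if_neg fun h => hc h.2, if_neg fun h => hc h.2]
        · rw [if_neg hg]
          by_cases hc : Q ≤ cjS g D ∧ am (al β n) (cjS g D) = cjS g D
          · rw [if_pos hc, hzero n hn g hc.1 hg]
          · rw [if_neg hc]
      · rw [if_neg hn]
        symm
        apply Finset.sum_eq_zero
        intro g _
        by_cases hg : g ∈ A
        · rw [if_pos hg, if_neg fun h => hn h.1]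
        · rw [if_neg hg]
    rw [Finset.sum_congr rfl fun n _ => h1 n, Finset.sum_comm]
    have h2 : ∀ g : G, ∑ n : G, (if g ∈ A then (if n ∈ N ∧ am (al β n) (cjS g D) = cjS g D then T else 0) else 0) =
        if g ∈ A then (Nat.card (N ⊓ nz (cjS g₀ D) : Subgroup G) : ℂ) * T else 0 := by
      intro g
      by_cases hg : g ∈ A
      · simp only [if_pos hg]
        rw [← Finset.sum_filter, Finset.sum_const, nsmul_eq_mul, hcount g hg]
      · simp only [if_neg hg]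
        exact Finset.sum_const_zero
    rw [Finset.sum_congr rfl fun g _ => h2 g, ← Finset.sum_filter, Finset.sum_const, nsmul_eq_mul]
    have h3 : (Finset.univ.filter fun g : G => g ∈ A).card = A.ncard := by
      rw [Set.ncard_eq_toFinset_card' A]
      congr 1
      ext g
      simp
    rw [h3, ← mul_assoc, ← mul_assoc]
    congr 1
    have h4 : (A.ncard : ℂ) * (Nat.card (N ⊓ nz (cjS g₀ D) : Subgroup G) : ℂ) =
        (Nat.card N : ℂ) * (Nat.card (nz D) : ℂ) := by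
      exact_mod_cast hdct
    rw [h4, mul_comm]

end Pool.Agent.FI4E
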